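import Pool.Agent.Helper15.FC.St1

/-! # FC module MOD: the Frobenius modulo `z - a` -/

set_option autoImplicit false

namespace Pool.Agent.Helper2.FC

open Pool.Agent.Helper15.FC Polynomial

private lemma ev_mem {L : Type} [Field L] {b : ℕ} (y : Fin b → PowerSeries L)
    (Φ : MvPolynomial (Option (Fin b)) L) : ev y Φ ∈ RR y := ⟨Φ, rfl⟩

private lemma ev_X_some {L : Type} [Field L] {b : ℕ} (y : Fin b → PowerSeries L) (t : Fin b) :
    ev y (MvPolynomial.X (some t)) = y t := by
  simp [ev, pt]

private lemma ev_X_none {L : Type} [Field L] {b : ℕ} (y : Fin b → PowerSeries L) :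
    ev y (MvPolynomial.X none) = PowerSeries.X := by
  simp [ev, pt]

private lemma ev_C {L : Type} [Field L] {b : ℕ} (y : Fin b → PowerSeries L) (c : L) :
    ev y (MvPolynomial.C c) = PowerSeries.C c := by
  simp only [ev, MvPolynomial.aeval_C]
  rfl

private lemma y_mem {L : Type} [Field L] {b : ℕ} (y : Fin b → PowerSeries L) (t : Fin b) :
    y t ∈ RR y := by
  rw [← ev_X_some y t]; exact ev_mem y _

private lemma X_mem {L : Type} [Field L] {b : ℕ} (y : Fin b → PowerSeries L) :
    (PowerSeries.X : PowerSeries L) ∈ RR y := by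
  rw [← ev_X_none y]; exact ev_mem y _

private lemma C_mem {L : Type} [Field L] {b : ℕ} (y : Fin b → PowerSeries L) (c : L) :
    PowerSeries.C c ∈ RR y := by
  rw [← ev_C y]; exact ev_mem y _

private lemma pol_mem {L : Type} [Field L] {b : ℕ} (y : Fin b → PowerSeries L) (p : L[X]) :
    (p : PowerSeries L) ∈ RR y := by
  induction p using Polynomial.induction_on' with
  | add p q hp hq => rw [Polynomial.coe_add]; exact add_mem hp hq
  | monomial n c =>
    rw [← Polynomial.C_mul_X_pow_eq_monomial, Polynomial.coe_mul, Polynomial.coe_pow,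
      Polynomial.coe_C, Polynomial.coe_X]
    exact mul_mem (C_mem y c) (pow_mem (X_mem y) n)

private lemma cg_refl {L : Type} [Field L] {b : ℕ} (y : Fin b → PowerSeries L) (a : L)
    (u : PowerSeries L) : Cg y a u u := ⟨0, zero_mem _, by simp⟩

private lemma cg_trans {L : Type} [Field L] {b : ℕ} {y : Fin b → PowerSeries L} {a : L}
    {u v w : PowerSeries L} (h1 : Cg y a u v) (h2 : Cg y a v w) : Cg y a u w := by
  obtain ⟨g, hg, h1⟩ := h1
  obtain ⟨g', hg', h2⟩ := h2
  exact ⟨g + g', add_mem hg hg', by linear_combination h1 + h2⟩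

private lemma cg_add {L : Type} [Field L] {b : ℕ} {y : Fin b → PowerSeries L} {a : L}
    {u v u' v' : PowerSeries L} (h1 : Cg y a u v) (h2 : Cg y a u' v') :
    Cg y a (u + u') (v + v') := by
  obtain ⟨g, hg, h1⟩ := h1
  obtain ⟨g', hg', h2⟩ := h2
  exact ⟨g + g', add_mem hg hg', by linear_combination h1 + h2⟩

private lemma cg_mul {L : Type} [Field L] {b : ℕ} {y : Fin b → PowerSeries L} {a : L}
    {u v u' v' : PowerSeries L} (hu : u ∈ RR y) (hv' : v' ∈ RR y) (h1 : Cg y a u v)
    (h2 : Cg y a u' v') : Cg y a (u * u') (v * v') := by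
  obtain ⟨g, hg, h1⟩ := h1
  obtain ⟨g', hg', h2⟩ := h2
  exact ⟨u * g' + g * v', add_mem (mul_mem hu hg') (mul_mem hg hv'),
    by linear_combination u * h2 + v' * h1⟩

private lemma cg_pow {L : Type} [Field L] {b : ℕ} {y : Fin b → PowerSeries L} {a : L}
    {u v : PowerSeries L} (hu : u ∈ RR y) (hv : v ∈ RR y) (h1 : Cg y a u v) (n : ℕ) :
    Cg y a (u ^ n) (v ^ n) := by
  induction n with
  | zero => rw [pow_zero, pow_zero]; exact cg_refl y a 1
  | succ n ih =>
    rw [pow_succ, pow_succ]
    exact cg_mul (pow_mem hu n) hv ih h1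

private lemma cg_sum {L : Type} [Field L] {b : ℕ} {y : Fin b → PowerSeries L} {a : L}
    {ι : Type} (S : Finset ι) (u v : ι → PowerSeries L) (h : ∀ i ∈ S, Cg y a (u i) (v i)) :
    Cg y a (∑ i ∈ S, u i) (∑ i ∈ S, v i) := by
  classical
  induction S using Finset.induction_on with
  | empty => rw [Finset.sum_empty, Finset.sum_empty]; exact cg_refl y a 0
  | insert i S hi ih =>
    rw [Finset.sum_insert hi, Finset.sum_insert hi]
    exact cg_add (h i (Finset.mem_insert_self i S))
      (ih fun j hj => h j (Finset.mem_insert_of_mem hj))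

private lemma cg_pol {L : Type} [Field L] {b : ℕ} (y : Fin b → PowerSeries L) (a : L)
    (p : L[X]) : Cg y a (p : PowerSeries L) (PowerSeries.C (p.eval a)) := by
  obtain ⟨g, hg⟩ := X_sub_C_dvd_sub_C_eval (p := p) (a := a)
  refine ⟨g, pol_mem y g, ?_⟩
  have := congrArg (fun r : L[X] => (r : PowerSeries L)) hg
  simpa only [Polynomial.coe_sub, Polynomial.coe_mul, Polynomial.coe_C, Polynomial.coe_X]
    using this

private lemma frob_aeval {k L : Type} [Field k] [Fintype k] [Field L] [Algebra k L]
    (a : L) (p : k[X]) (j : ℕ) :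
    (aeval a p) ^ (Fintype.card k ^ j) = aeval (a ^ (Fintype.card k ^ j)) p := by
  induction j generalizing a with
  | zero => simp
  | succ j ih =>
    have h1 : (aeval a p) ^ Fintype.card k = aeval (a ^ Fintype.card k) p := by
      rw [← map_pow, ← FiniteField.expand_card, expand_aeval]
    rw [pow_succ', pow_mul, h1, ih, ← pow_mul]

private lemma keyA {k L : Type} [Field k] [Fintype k] [Field L] [Algebra k L]
    (b : ℕ) (XX : Matrix (Fin b) (Fin b) k[X]) (y : Fin b → PowerSeries k)
    (a : L) (hS : Sys (Fintype.card k) XX y) (j : ℕ) (i : Fin b) :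
    Cg (upL L y) a ((upL L y i) ^ (Fintype.card k ^ j))
      (∑ t, PowerSeries.C (NmX XX (Fintype.card k) a j i t) * upL L y t) := by
  obtain ⟨p, hp, n, hpr, hcard⟩ := FiniteField.card' k
  have : Fact p.Prime := ⟨hpr⟩
  have : CharP L p := charP_of_injective_algebraMap (algebraMap k L).injective p
  have : CharP (PowerSeries L) p :=
    charP_of_injective_algebraMap (R := L) (A := PowerSeries L)
      (algebraMap L (PowerSeries L)).injective p
  have hY : ∀ t, upL L y t ∈ RR (upL L y) := fun t => y_mem _ t
  induction j generalizing i with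
  | zero =>
    rw [pow_zero, pow_one]
    have h1 : ∑ t, PowerSeries.C (NmX XX (Fintype.card k) a 0 i t) * upL L y t = upL L y i := by
      classical
      rw [Finset.sum_eq_single i]
      · simp [NmX]
      · intro t _ ht
        simp [NmX, Matrix.one_apply_ne (Ne.symm ht)]
      · simp
    rw [h1]
    exact cg_refl _ _ _
  | succ j ih =>
    have h1 : (upL L y i) ^ Fintype.card k =
        ∑ t, (((XX i t).map (algebraMap k L) : L[X]) : PowerSeries L) * upL L y t := by
      have h2 := congrArg (PowerSeries.map (algebraMap k L)) (hS.1 i)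
      rw [map_pow, map_sum] at h2
      change (PowerSeries.map (algebraMap k L) (y i)) ^ Fintype.card k = _
      rw [h2]
      refine Finset.sum_congr rfl fun t _ => ?_
      rw [map_mul, polynomial_map_coe]
      rfl
    have h3 : (upL L y i) ^ (Fintype.card k ^ (j + 1)) =
        ∑ t, ((((XX i t).map (algebraMap k L) : L[X]) : PowerSeries L) ^ (Fintype.card k ^ j)) *
          (upL L y t) ^ (Fintype.card k ^ j) := by
      rw [pow_succ', pow_mul, h1, hcard, ← pow_mul, sum_pow_char_pow]
      exact Finset.sum_congr rfl fun t _ => mul_pow _ _ _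
    rw [h3]
    have h4 : ∑ u, PowerSeries.C (NmX XX (Fintype.card k) a (j + 1) i u) * upL L y u =
        ∑ t, PowerSeries.C ((aeval a (XX i t)) ^ (Fintype.card k ^ j)) *
          ∑ u, PowerSeries.C (NmX XX (Fintype.card k) a j t u) * upL L y u := by
      simp_rw [Finset.mul_sum]
      rw [Finset.sum_comm]
      refine Finset.sum_congr rfl fun u _ => ?_
      rw [NmX, Matrix.mul_apply, map_sum, Finset.sum_mul]
      refine Finset.sum_congr rfl fun t _ => ?_
      rw [frob_aeval, Matrix.map_apply, map_mul, mul_assoc]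
    rw [h4]
    refine cg_sum _ _ _ fun t _ => ?_
    have h5 : Cg (upL L y) a
        ((((XX i t).map (algebraMap k L) : L[X]) : PowerSeries L) ^ (Fintype.card k ^ j))
        (PowerSeries.C ((aeval a (XX i t)) ^ (Fintype.card k ^ j))) := by
      rw [map_pow]
      have h6 := cg_pol (upL L y) a ((XX i t).map (algebraMap k L))
      rw [eval_map_algebraMap] at h6
      exact cg_pow (pol_mem _ _) (C_mem _ _) h6 _
    refine cg_mul (pow_mem (pol_mem _ _) _) ?_ h5 (ih t)
    exact sum_mem fun u _ => mul_mem (C_mem _ _) (hY u)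

/-- **MOD** -/
theorem hMOD : StMOD := by
  intro k L _ _ _ _ _ b s XX y c a hS hcard hNm Φ
  obtain ⟨p, hp, n, hpr, hq⟩ := FiniteField.card' L
  have : Fact p.Prime := ⟨hpr⟩
  have : CharP (PowerSeries L) p :=
    charP_of_injective_algebraMap (R := L) (A := PowerSeries L)
      (algebraMap L (PowerSeries L)).injective p
  set Y := upL L y with hYdef
  set Y' := cy (c.map (algebraMap k L)) Y with hY'def
  have hY' : ∀ i, Y' i ∈ RR Y := by
    intro i
    exact sum_mem fun u _ => mul_mem (C_mem _ _) (y_mem _ u)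
  have hmem' : ∀ Ψ : MvPolynomial (Option (Fin b)) L, ev Y' Ψ ∈ RR Y := by
    intro Ψ
    induction Ψ using MvPolynomial.induction_on with
    | C r => rw [ev_C]; exact C_mem _ _
    | add P Q hP hQ => rw [map_add]; exact add_mem hP hQ
    | mul_X P o hP =>
      rw [map_mul]
      refine mul_mem hP ?_
      cases o with
      | none => rw [ev_X_none]; exact X_mem _
      | some t => rw [ev_X_some]; exact hY' t
  have hX : Cg Y a ((PowerSeries.X : PowerSeries L) ^ Fintype.card L) PowerSeries.X := by
    have h1 : Cg Y a (PowerSeries.X : PowerSeries L) (PowerSeries.C a) := by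
      refine ⟨1, one_mem _, by ring⟩
    have h2 : Cg Y a (PowerSeries.C a) (PowerSeries.X : PowerSeries L) := by
      refine ⟨-1, neg_mem (one_mem _), by ring⟩
    have h3 := cg_pow (X_mem Y) (C_mem Y a) h1 (Fintype.card L)
    rw [← map_pow, FiniteField.pow_card] at h3
    exact cg_trans h3 h2
  have hYt : ∀ t, Cg Y a ((Y t) ^ Fintype.card L) (Y' t) := by
    intro t
    have h1 := keyA b XX y a hS s t
    rw [← hcard, hNm] at h1
    exact h1
  induction Φ using MvPolynomial.induction_on with
  | C r =>
    rw [ev_C, ev_C, ← map_pow, FiniteField.pow_card]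
    exact cg_refl _ _ _
  | add P Q hP hQ =>
    rw [map_add, map_add]
    have h1 : (ev Y P + ev Y Q) ^ Fintype.card L =
        (ev Y P) ^ Fintype.card L + (ev Y Q) ^ Fintype.card L := by
      rw [hq]; exact add_pow_char_pow _ _ _ _
    rw [h1]
    exact cg_add hP hQ
  | mul_X P o hP =>
    rw [map_mul, map_mul, mul_pow]
    refine cg_mul (pow_mem (ev_mem _ _) _) (hmem' _) hP ?_
    cases o with
    | none => rw [ev_X_none, ev_X_none]; exact hX
    | some t => rw [ev_X_some, ev_X_some]; exact hYt t

end Pool.Agent.Helper2.FC
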