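import Pool.Agent.Helper15.FC.St3

/-! # FC module RAM: Ramanujan sums -/

set_option autoImplicit false

namespace Pool.Agent.Helper2.FC

open Pool.Agent.Helper15.FC Polynomial

private lemma exists_gcd {F : Type} [Field F] (x r : F[X]) (hr : r ≠ 0) :
    ∃ g : F[X], g.Monic ∧ g ∣ x ∧ g ∣ r ∧ ∃ a b : F[X], g = x * a + r * b := by
  classical
  set g0 := EuclideanDomain.gcd x r with hg0
  have h0 : g0 ≠ 0 := by
    intro h
    have := EuclideanDomain.gcd_dvd_right x r
    rw [← hg0, h, zero_dvd_iff] at this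
    exact hr this
  have hlc : IsUnit (C (g0.leadingCoeff)⁻¹) :=
    isUnit_C.2 (IsUnit.mk0 _ (inv_ne_zero (leadingCoeff_ne_zero.2 h0)))
  refine ⟨g0 * C (g0.leadingCoeff)⁻¹, monic_mul_leadingCoeff_inv h0, ?_, ?_,
    EuclideanDomain.gcdA x r * C (g0.leadingCoeff)⁻¹,
    EuclideanDomain.gcdB x r * C (g0.leadingCoeff)⁻¹, ?_⟩
  · exact (hlc.mul_right_dvd).2 (EuclideanDomain.gcd_dvd_left x r)
  · exact (hlc.mul_right_dvd).2 (EuclideanDomain.gcd_dvd_right x r)
  · have h1 := EuclideanDomain.gcd_eq_gcd_ab x r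
    rw [← hg0] at h1
    calc g0 * C (g0.leadingCoeff)⁻¹
        = (x * EuclideanDomain.gcdA x r + r * EuclideanDomain.gcdB x r) *
            C (g0.leadingCoeff)⁻¹ := by rw [← h1]
      _ = _ := by ring

private lemma quot {F : Type} [Field F] [Fintype F] (r d : F[X]) (hr : r.Monic) (hd : d ∈ Dv r) :
    d * (r / d) = r ∧ (r / d).Monic ∧ r / d ∈ Dv r ∧ r / (r / d) = d ∧
      d.natDegree + (r / d).natDegree = r.natDegree := by
  rw [mem_Dv hr.ne_zero] at hd
  obtain ⟨hdm, hdr⟩ := hd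
  have h1 : d * (r / d) = r := EuclideanDomain.mul_div_cancel' hdm.ne_zero hdr
  have h2 : (r / d).Monic := hdm.of_mul_monic_left (by rw [h1]; exact hr)
  refine ⟨h1, h2, ?_, ?_, ?_⟩
  · rw [mem_Dv hr.ne_zero]
    exact ⟨h2, ⟨d, by rw [mul_comm]; exact h1.symm⟩⟩
  · have h3 : r / (r / d) = (d * (r / d)) / (r / d) := by rw [h1]
    rw [h3, mul_div_cancel_right₀ _ h2.ne_zero]
  · rw [← hdm.natDegree_mul h2, h1]

private lemma mob_sum (hMOB : StMOB) {F : Type} [Field F] [Fintype F] (r x : F[X])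
    (hr : r.Monic) (S : Finset F[X]) (hS : ∀ d, d ∈ S ↔ d.Monic ∧ d ∣ r ∧ d ∣ x) :
    (IsCoprime x r → ∑ d ∈ S, mob d = 1) ∧ (¬ IsCoprime x r → ∑ d ∈ S, mob d = 0) := by
  obtain ⟨g, hg, hgx, hgr, a, b, hab⟩ := exists_gcd x r hr.ne_zero
  have hSg : S = Dv g := by
    ext d
    rw [hS, mem_Dv hg.ne_zero]
    constructor
    · rintro ⟨h1, h2, h3⟩
      refine ⟨h1, ?_⟩
      rw [hab]
      exact dvd_add (dvd_mul_of_dvd_left h3 _) (dvd_mul_of_dvd_left h2 _)
    · rintro ⟨h1, h2⟩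
      exact ⟨h1, h2.trans hgr, h2.trans hgx⟩
  rw [hSg]
  constructor
  · intro hc
    have h1 : g = 1 := by
      obtain ⟨u, v, huv⟩ := hc
      have : g ∣ 1 := by
        rw [← huv]
        exact dvd_add (dvd_mul_of_dvd_right hgx _) (dvd_mul_of_dvd_right hgr _)
      exact hg.isUnit_iff.1 (isUnit_of_dvd_one this)
    rw [h1]
    exact (hMOB F).1
  · intro hc
    refine (hMOB F).2 g hg ?_
    rintro rfl
    exact hc ⟨a, b, by rw [hab]; ring⟩

private lemma sum_zero_of_ne {F : Type} [Field F] [Fintype F] (N : ℕ) (φ : F[X] → ℂ)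
    (hφ : ∀ x y, φ (x + y) = φ x * φ y) (g0 : F[X]) (hg0 : g0 ∈ Lw F N) (h1 : φ g0 ≠ 1) :
    ∑ g ∈ Lw F N, φ g = 0 := by
  have h2 : ∑ g ∈ Lw F N, φ g = φ g0 * ∑ g ∈ Lw F N, φ g := by
    rw [Finset.mul_sum]
    symm
    rw [mem_Lw] at hg0
    refine Finset.sum_nbij' (fun g => g + g0) (fun g => g - g0) ?_ ?_ ?_ ?_ ?_
    · intro g hg
      rw [mem_Lw] at hg ⊢
      exact lt_of_le_of_lt (degree_add_le _ _) (max_lt hg hg0)
    · intro g hg
      rw [mem_Lw] at hg ⊢
      exact lt_of_le_of_lt (degree_sub_le _ _) (max_lt hg hg0)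
    · intro g _
      simp
    · intro g _
      simp
    · intro g _
      rw [hφ, mul_comm]
  have h3 : (1 - φ g0) * ∑ g ∈ Lw F N, φ g = 0 := by linear_combination h2
  rcases mul_eq_zero.1 h3 with h | h
  · exact absurd (sub_eq_zero.1 h).symm h1
  · exact h

private lemma inner {F : Type} [Field F] [Fintype F] (r f d : F[X]) (ν : AddChar F[X] ℂ)
    (hr : r.Monic) (hν1 : ν ∈ AC r)
    (hν2 : ∀ r' : F[X], r'.Monic → r' ∣ r → ν ∈ AC r' → r' = r) (hd : d ∈ Dv r) :
    (r / d ∣ f → ∑ y ∈ Lw F (r / d).natDegree, ν (d * y * f) =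
      (Fintype.card F : ℂ) ^ (r / d).natDegree) ∧
    (¬ r / d ∣ f → ∑ y ∈ Lw F (r / d).natDegree, ν (d * y * f) = 0) := by
  obtain ⟨h1, h2, h3, h4, h5⟩ := quot r d hr hd
  constructor
  · rintro ⟨c, hc⟩
    have : ∀ y ∈ Lw F (r / d).natDegree, ν (d * y * f) = 1 := by
      intro y _
      have h6 : d * y * f = r * (y * c) := by
        calc d * y * f = (d * (r / d)) * (y * c) := by rw [hc]; ring
          _ = _ := by rw [h1]
      rw [h6]
      exact hν1 _
    rw [Finset.sum_congr rfl this, Finset.sum_const, card_Lw, nsmul_eq_mul, mul_one, Nat.cast_pow]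
  · intro hnd
    by_contra hne
    apply hnd
    have htriv : ∀ y ∈ Lw F (r / d).natDegree, ν (d * y * f) = 1 := by
      intro y hy
      by_contra h6
      exact hne (sum_zero_of_ne _ (fun y => ν (d * y * f)) (by
        intro x y
        rw [← AddChar.map_add_eq_mul]
        congr 1
        ring) y hy h6)
    have hall : ∀ y : F[X], ν (d * y * f) = 1 := by
      intro y
      have h6 := modByMonic_add_div y (r / d)
      have h7 : (y %ₘ (r / d)) ∈ Lw F (r / d).natDegree := by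
        rw [mem_Lw, ← degree_eq_natDegree h2.ne_zero]
        exact degree_modByMonic_lt y h2
      have h8 : d * y * f = d * (y %ₘ (r / d)) * f + r * ((y /ₘ (r / d)) * f) := by
        calc d * y * f = d * (y %ₘ (r / d) + (r / d) * (y /ₘ (r / d))) * f := by rw [h6]
          _ = d * (y %ₘ (r / d)) * f + (d * (r / d)) * ((y /ₘ (r / d)) * f) := by ring
          _ = _ := by rw [h1]
      rw [h8, AddChar.map_add_eq_mul, htriv _ h7, hν1 _, mul_one]
    obtain ⟨g, hg, hgx, hgr, a, b, hab⟩ := exists_gcd (d * f) r hr.ne_zero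
    have hgAC : ν ∈ AC g := by
      intro y
      have h9 : g * y = d * (a * y) * f + r * (b * y) := by rw [hab]; ring
      rw [h9, AddChar.map_add_eq_mul, hall, hν1 _, mul_one]
    have hgr2 := hν2 g hg hgr hgAC
    rw [hgr2] at hgx
    obtain ⟨c, hc⟩ := hgx
    rw [mem_Dv hr.ne_zero] at hd
    refine ⟨c, mul_left_cancel₀ hd.1.ne_zero ?_⟩
    rw [hc, ← mul_assoc, h1]

private lemma sum_mult {F : Type} [Field F] [Fintype F] (r d : F[X]) (hr : r.Monic)
    (hd : d ∈ Dv r) (S : Finset F[X]) (hS : ∀ x, x ∈ S ↔ x ∈ Lw F r.natDegree ∧ d ∣ x)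
    (φ : F[X] → ℂ) :
    ∑ x ∈ S, φ x = ∑ y ∈ Lw F (r / d).natDegree, φ (d * y) := by
  obtain ⟨h1, h2, h3, h4, h5⟩ := quot r d hr hd
  rw [mem_Dv hr.ne_zero] at hd
  symm
  refine Finset.sum_bij (fun y _ => d * y) ?_ ?_ ?_ ?_
  · intro y hy
    rw [hS, mem_Lw]
    rw [mem_Lw] at hy
    refine ⟨?_, dvd_mul_right _ _⟩
    by_cases hy0 : y = 0
    · rw [hy0, mul_zero, degree_zero]; exact WithBot.bot_lt_coe _
    · rw [degree_mul, degree_eq_natDegree hd.1.ne_zero, degree_eq_natDegree hy0, ← h5]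
      rw [degree_eq_natDegree hy0] at hy
      norm_cast at hy ⊢
      omega
  · intro y _ y' _ h
    exact mul_left_cancel₀ hd.1.ne_zero h
  · intro x hx
    rw [hS, mem_Lw] at hx
    obtain ⟨hx1, y, rfl⟩ := hx
    refine ⟨y, ?_, rfl⟩
    rw [mem_Lw]
    by_cases hy0 : y = 0
    · rw [hy0, degree_zero]; exact WithBot.bot_lt_coe _
    · rw [degree_mul, degree_eq_natDegree hd.1.ne_zero, degree_eq_natDegree hy0, ← h5] at hx1
      rw [degree_eq_natDegree hy0]
      norm_cast at hx1 ⊢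
      omega
  · intro y _
    rfl

/-- **RAM** -/
theorem hRAM (hACF : StACF) (hMOB : StMOB) : StRAM := by
  classical
  intro F _ _ r f ν hr hν
  have hν0 := Finset.mem_filter.1 hν
  have hν1 : ν ∈ AC r := (((hACF F).2 r hr).2.1 ν).1 hν0.1
  have hν2 := hν0.2
  have key1 : ∑ x ∈ Lc r, ν (x * f) = ∑ x ∈ Lw F r.natDegree, ∑ d ∈ Dv r,
      (if d ∣ x then (mob d : ℂ) * ν (x * f) else 0) := by
    unfold Lc
    rw [Finset.sum_filter]
    refine Finset.sum_congr rfl fun x hx => ?_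
    have h1 := mob_sum hMOB r x hr ((Dv r).filter (fun d => d ∣ x)) (by
      intro d
      rw [Finset.mem_filter, mem_Dv hr.ne_zero, and_assoc])
    rw [← Finset.sum_filter, ← Finset.sum_mul, ← Int.cast_sum]
    by_cases hc : IsCoprime x r
    · rw [if_pos hc, h1.1 hc, Int.cast_one, one_mul]
    · rw [if_neg hc, h1.2 hc, Int.cast_zero, zero_mul]
  have key2 : ∀ d ∈ Dv r, ∑ x ∈ Lw F r.natDegree,
      (if d ∣ x then (mob d : ℂ) * ν (x * f) else 0) =
      (if r / d ∣ f then (mob d : ℂ) * (Fintype.card F : ℂ) ^ (r / d).natDegree else 0) := by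
    intro d hd
    rw [← Finset.sum_filter, ← Finset.mul_sum, sum_mult r d hr hd _ (by
      intro x
      rw [Finset.mem_filter]) (fun x => ν (x * f))]
    have h1 := inner r f d ν hr hν1 hν2 hd
    by_cases hc : r / d ∣ f
    · rw [if_pos hc, h1.1 hc]
    · rw [if_neg hc, h1.2 hc, mul_zero]
  rw [key1, Finset.sum_comm, Finset.sum_congr rfl key2]
  unfold cram
  rw [Int.cast_sum, Finset.sum_filter]
  refine Finset.sum_nbij' (fun d => r / d) (fun d => r / d) ?_ ?_ ?_ ?_ ?_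
  · intro d hd
    exact (quot r d hr hd).2.2.1
  · intro d hd
    exact (quot r d hr hd).2.2.1
  · intro d hd
    exact (quot r d hr hd).2.2.2.1
  · intro d hd
    exact (quot r d hr hd).2.2.2.1
  · intro d hd
    rw [(quot r d hr hd).2.2.2.1]
    by_cases hc : r / d ∣ f
    · rw [if_pos hc, if_pos hc]
      push_cast
      rfl
    · rw [if_neg hc, if_neg hc]

end Pool.Agent.Helper2.FC
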