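import Pool.Agent.Helper15.FC.St3

/-! # FC module SME -/

set_option autoImplicit false

namespace Pool.Agent.Helper2.FC

open Pool.Agent.Helper15.FC Polynomial

private lemma sum_split {F : Type} [Field F] [Fintype F] {β : Type} [AddCommMonoid β]
    (n m : ℕ) (hmn : m ≤ n) (φ : F[X] → β) :
    ∑ f ∈ Mn F n, φ f = ∑ G ∈ Mn F (n - m), ∑ g ∈ Lw F m, φ (X ^ m * G + g) := by
  classical
  rw [← Finset.sum_product']
  symm
  have hX : (X ^ m : F[X]).Monic := monic_X_pow m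
  refine Finset.sum_nbij' (fun p => X ^ m * p.1 + p.2) (fun f => (f /ₘ X ^ m, f %ₘ X ^ m))
    ?_ ?_ ?_ ?_ ?_
  · rintro ⟨G, g⟩ hp
    rw [Finset.mem_product] at hp
    obtain ⟨hG, hg⟩ := hp
    rw [mem_Mn] at hG
    rw [mem_Lw] at hg
    simp only at hG hg
    have h1 : (X ^ m * G).Monic := hX.mul hG.1
    have h2 : (X ^ m * G).natDegree = n := by
      rw [hX.natDegree_mul hG.1, natDegree_X_pow, hG.2]; omega
    have h3 : g.degree < (X ^ m * G).degree := by
      rw [degree_eq_natDegree h1.ne_zero, h2]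
      exact lt_of_lt_of_le hg (by exact_mod_cast hmn)
    rw [mem_Mn]
    exact ⟨h1.add_of_left h3, by rw [natDegree_add_eq_left_of_degree_lt h3, h2]⟩
  · intro f hf
    rw [mem_Mn] at hf
    rw [Finset.mem_product, mem_Mn, mem_Lw]
    refine ⟨⟨?_, ?_⟩, ?_⟩
    · rw [Monic, leadingCoeff_divByMonic_of_monic hX, hf.1.leadingCoeff]
      rw [degree_X_pow, degree_eq_natDegree hf.1.ne_zero, hf.2]
      exact_mod_cast hmn
    · simp only
      rw [natDegree_divByMonic _ hX, natDegree_X_pow, hf.2]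
    · have := degree_modByMonic_lt f hX
      rwa [degree_X_pow] at this
  · rintro ⟨G, g⟩ hp
    rw [Finset.mem_product] at hp
    obtain ⟨hG, hg⟩ := hp
    rw [mem_Lw] at hg
    simp only at hg
    have := div_modByMonic_unique G g hX (f := X ^ m * G + g)
      ⟨by ring, by rwa [degree_X_pow]⟩
    exact Prod.ext this.1 this.2
  · intro f hf
    simp only
    have := modByMonic_add_div f (X ^ m : F[X])
    rw [add_comm]
    exact this
  · rintro ⟨G, g⟩ hp
    rfl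

private lemma var_le {ι : Type} (S : Finset ι) (A u v : ι → ℂ) (hu : ∀ i ∈ S, ‖u i‖ = 1)
    (hv : ∀ i ∈ S, v i = (starRingEnd ℂ) (u i)) (c : ℂ)
    (hc : (S.card : ℂ) * c = ∑ i ∈ S, u i * A i) :
    ∑ i ∈ S, ‖A i - v i * c‖ ^ 2 ≤ ∑ i ∈ S, ‖A i‖ ^ 2 := by
  have h1 : ∀ i ∈ S, ‖A i - v i * c‖ ^ 2 =
      ‖A i‖ ^ 2 + ‖c‖ ^ 2 - 2 * ((u i * A i) * (starRingEnd ℂ) c).re := by
    intro i hi
    rw [Complex.sq_norm, Complex.sq_norm, Complex.sq_norm, Complex.normSq_sub, Complex.normSq_mul,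
      map_mul, hv i hi, Complex.normSq_conj, Complex.conj_conj]
    have : Complex.normSq (u i) = 1 := by rw [← Complex.sq_norm, hu i hi]; norm_num
    rw [this, one_mul]
    congr 3
    ring
  rw [Finset.sum_congr rfl h1, Finset.sum_sub_distrib, Finset.sum_add_distrib, Finset.sum_const,
    ← Finset.mul_sum, ← Complex.re_sum, ← Finset.sum_mul, ← hc, nsmul_eq_mul]
  have h2 : ((S.card : ℂ) * c * (starRingEnd ℂ) c).re = (S.card : ℝ) * ‖c‖ ^ 2 := by
    rw [mul_assoc, Complex.mul_conj, ← Complex.sq_norm]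
    norm_cast
  rw [h2]
  have h3 : 0 ≤ (S.card : ℝ) * ‖c‖ ^ 2 := by positivity
  linarith

private lemma Me_eq_zero {F : Type} [Field F] [Fintype F] (k n m Q : ℕ) (η : AddChar F[X] ℂ)
    (G : F[X]) (h : ¬ ∃ (r : F[X]) (ν : AddChar F[X] ℂ), r.Monic ∧ r.natDegree ≤ Q ∧ ν ∈ Pr r ∧
      ∀ g ∈ Lw F m, η g = ν g) : Me k n m Q η G = 0 := by
  unfold Me
  refine Finset.sum_eq_zero fun i hi => Finset.sum_eq_zero fun r hr =>
    Finset.sum_eq_zero fun ν hν => ?_
  rw [Finset.mem_filter] at hν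
  rw [mem_Mn] at hr
  rw [Finset.mem_range] at hi
  exact absurd ⟨r, ν, hr.1, by omega, hν.1, hν.2⟩ h

private lemma Me_eq (hUNI : StUNI) {F : Type} [Field F] [Fintype F] (k n m Q : ℕ)
    (hQ : 2 * Q ≤ m) (η : AddChar F[X] ℂ)
    (G : F[X]) (r : F[X]) (ν : AddChar F[X] ℂ) (hr : r.Monic) (hd : r.natDegree ≤ Q)
    (hν : ν ∈ Pr r) (hη : ∀ g ∈ Lw F m, η g = ν g) :
    Me k n m Q η G = ν (-(X ^ m * G)) * (((Fintype.card F : ℂ) ^ (n - m))⁻¹ * Sn k n ν) := by
  unfold Me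
  rw [Finset.sum_eq_single r.natDegree, Finset.sum_eq_single r, Finset.sum_eq_single ν, mul_assoc]
  · intro ν' hν' hne
    rw [Finset.mem_filter] at hν'
    have := hUNI F m Q r r ν ν' hQ hr hr hd hd hν hν'.1
      (fun g hg => (hη g hg).symm.trans (hν'.2 g hg))
    exact absurd this.2.symm hne
  · intro h
    exact absurd (Finset.mem_filter.2 ⟨hν, hη⟩) h
  · intro r' hr' hne
    refine Finset.sum_eq_zero fun ν' hν' => ?_
    rw [Finset.mem_filter] at hν'
    rw [mem_Mn] at hr'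
    have := hUNI F m Q r r' ν ν' hQ hr hr'.1 hd (by omega) hν hν'.1
      (fun g hg => (hη g hg).symm.trans (hν'.2 g hg))
    exact absurd this.1.symm hne
  · intro h
    exact absurd (mem_Mn.2 ⟨hr, rfl⟩) h
  · intro i hi hne
    refine Finset.sum_eq_zero fun r' hr' => Finset.sum_eq_zero fun ν' hν' => ?_
    rw [Finset.mem_filter] at hν'
    rw [mem_Mn] at hr'
    rw [Finset.mem_range] at hi
    have := hUNI F m Q r r' ν ν' hQ hr hr'.1 hd (by omega) hν hν'.1
      (fun g hg => (hη g hg).symm.trans (hν'.2 g hg))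
    exact absurd (by rw [← hr'.2, this.1]) hne
  · intro h
    exact absurd (Finset.mem_range.2 (by omega)) h

private lemma one_eta (hACF : StACF) (hUNI : StUNI) {F : Type} [Field F] [Fintype F]
    (k n m Q : ℕ) (hmn : m ≤ n) (hQ : 2 * Q ≤ m) (η : AddChar F[X] ℂ) :
    ∑ G ∈ Mn F (n - m), ‖Ae k m η G - Me k n m Q η G‖ ^ 2 ≤
      ∑ G ∈ Mn F (n - m), ‖Ae k m η G‖ ^ 2 := by
  by_cases h : ∃ (r : F[X]) (ν : AddChar F[X] ℂ), r.Monic ∧ r.natDegree ≤ Q ∧ ν ∈ Pr r ∧
      ∀ g ∈ Lw F m, η g = ν g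
  · obtain ⟨r, ν, hr, hd, hν, hη⟩ := h
    have h1 := var_le (Mn F (n - m)) (fun G => Ae k m η G) (fun G => ν (X ^ m * G))
      (fun G => ν (-(X ^ m * G))) (fun G _ => ((hACF F).1 ν _).1) (fun G _ => ((hACF F).1 ν _).2)
      (((Fintype.card F : ℂ) ^ (n - m))⁻¹ * Sn k n ν) (by
        have hq : ((Fintype.card F : ℂ) ^ (n - m)) ≠ 0 :=
          pow_ne_zero _ (Nat.cast_ne_zero.2 Fintype.card_ne_zero)
        rw [card_Mn, Nat.cast_pow, mul_inv_cancel_left₀ hq]
        unfold Sn Ae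
        rw [sum_split n m hmn]
        refine Finset.sum_congr rfl fun G _ => ?_
        rw [Finset.mul_sum]
        refine Finset.sum_congr rfl fun g hg => ?_
        rw [AddChar.map_add_eq_mul, hη g hg]
        ring)
    refine le_trans (le_of_eq ?_) h1
    refine Finset.sum_congr rfl fun G _ => ?_
    rw [Me_eq hUNI k n m Q hQ η G r ν hr hd hν hη]
  · refine le_of_eq (Finset.sum_congr rfl fun G _ => ?_)
    rw [Me_eq_zero k n m Q η G h, sub_zero]

/-- **SME** -/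
theorem hSME (hACF : StACF) (hUNI : StUNI) (hPAR : StPAR) : StSME := by
  intro F _ _ k n m Q hmn hQ
  refine le_trans (Finset.sum_le_sum fun η _ => one_eta hACF hUNI k n m Q hmn hQ η) ?_
  rw [Finset.sum_comm, sum_split n m hmn, Finset.mul_sum]
  refine Finset.sum_le_sum fun G _ => le_of_eq ?_
  have h1 := hPAR F m (fun g => (dk k (X ^ m * G + g) : ℂ))
  unfold Ae
  rw [h1]
  congr 1
  refine Finset.sum_congr rfl fun g _ => ?_
  rw [Complex.norm_natCast]

end Pool.Agent.Helper2.FC
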