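import Pool.Agent.Helper15.FC.St1

/-! # FC module ORD -/

set_option autoImplicit false

namespace Pool.Agent.Helper2.FC

open Pool.Agent.Helper15.FC Polynomial

private noncomputable def cf (L : Type) [Field L] (M : ℕ) : PowerSeries L →ₗ[L] (Fin M → L) :=
  LinearMap.pi (fun j => PowerSeries.coeff (R := L) (j : ℕ))

private lemma cf_apply (L : Type) [Field L] (M : ℕ) (u : PowerSeries L) (j : Fin M) :
    cf L M u j = PowerSeries.coeff (j : ℕ) u := rfl

private lemma cf_X_pow (L : Type) [Field L] (M : ℕ) (j : Fin M) :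
    cf L M ((PowerSeries.X : PowerSeries L) ^ (j : ℕ)) = Pi.single j 1 := by
  classical
  funext i
  rw [cf_apply, PowerSeries.coeff_X_pow]
  by_cases h : i = j
  · subst h; simp
  · rw [Pi.single_eq_of_ne h, if_neg]
    intro h2
    exact h (Fin.ext h2)

private lemma step (hVB : StVB) (L : Type) [Field L] (b : ℕ) (y : Fin b → PowerSeries L)
    (l M : ℕ) (s : PowerSeries L) (hs : s ∈ Vj y l) (hs0 : s ≠ 0)
    (hd : (PowerSeries.X : PowerSeries L) ^ M ∣ s) (i : ℕ) (hi : M ≤ i) :
    Module.finrank L (Vj y i) + M ≤ Module.finrank L (Vj y (i + l)) := by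
  obtain ⟨hmul, hmono, hX, hC, hy, hfin, hR⟩ := hVB L b y
  have := hfin (i + l)
  have := hfin i
  set V := Vj y (i + l) with hV
  set φ : V →ₗ[L] (Fin M → L) := (cf L M).domRestrict V with hφ
  have hrange : LinearMap.range φ = ⊤ := by
    rw [eq_top_iff]
    rintro v -
    have hv : v = ∑ j, v j • (Pi.single j 1 : Fin M → L) := by
      classical
      funext i
      simp [Finset.sum_apply, Pi.single_apply]
    rw [hv]
    refine Submodule.sum_mem _ fun j _ => Submodule.smul_mem _ _ ?_
    refine ⟨⟨(PowerSeries.X : PowerSeries L) ^ (j : ℕ), ?_⟩, ?_⟩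
    · exact hmono _ _ (by have := j.2; omega) (hX (j : ℕ))
    · rw [hφ, LinearMap.domRestrict_apply]
      exact cf_X_pow L M j
  have hrk := LinearMap.finrank_range_add_finrank_ker φ
  rw [hrange, finrank_top, Module.finrank_fin_fun] at hrk
  -- the injection
  let ψ : Vj y i →ₗ[L] LinearMap.ker φ :=
    LinearMap.codRestrict (LinearMap.ker φ)
      (LinearMap.codRestrict V ((LinearMap.mulLeft L s).domRestrict (Vj y i)) (by
        intro u
        have h1 := hmul l i s u hs u.2
        rw [add_comm] at h1
        simpa using h1)) (by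
        intro u
        rw [LinearMap.mem_ker, hφ]
        funext j
        obtain ⟨w, hw⟩ := hd
        change PowerSeries.coeff (j : ℕ) (s * (u : PowerSeries L)) = 0
        rw [hw, mul_assoc, PowerSeries.coeff_X_pow_mul', if_neg (by have := j.2; omega)])
  have hψ : Function.Injective ψ := by
    intro u v huv
    have h1 : s * (u : PowerSeries L) = s * (v : PowerSeries L) :=
      congrArg (fun t : LinearMap.ker φ => ((t : V) : PowerSeries L)) huv
    exact Subtype.ext (mul_left_cancel₀ hs0 h1)
  have h2 := LinearMap.finrank_le_finrank_of_injective hψ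
  omega

/-- **ORD** -/
theorem hORD (hVB : StVB) : StORD := by
  intro L _ b y h C' hb l s hs hs0 hd
  set M := h * l + 1 with hM
  have hit : ∀ T : ℕ, Module.finrank L (Vj y M) + T * M ≤ Module.finrank L (Vj y (M + T * l)) := by
    intro T
    induction T with
    | zero => rw [Nat.zero_mul, Nat.zero_mul, Nat.add_zero, Nat.add_zero]
    | succ T ih =>
      have h1 := step hVB L b y l M s hs hs0 hd (M + T * l) (Nat.le_add_right _ _)
      have h2 : M + (T + 1) * l = M + T * l + l := by ring
      rw [h2]
      have h3 : (T + 1) * M = T * M + M := by ring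
      omega
  have h1 := hit (2 * C' + 1)
  have h2 := (hb (M + (2 * C' + 1) * l)).2
  have h3 := (hb M).1
  have h4 : h * (M + (2 * C' + 1) * l) = h * M + (2 * C' + 1) * (h * l) := by ring
  have h5 : (2 * C' + 1) * M = (2 * C' + 1) * (h * l) + (2 * C' + 1) := by rw [hM]; ring
  rw [h4] at h2
  rw [h5] at h1
  omega

end Pool.Agent.Helper2.FC
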